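import Pool.Agent.Y661.HE.BND

/-! HE-INF (job 4419, helper657 for helper661): influence of one site on the correctors -/

set_option autoImplicit false

open scoped BigOperators
open MeasureTheory Filter

namespace Pool.Agent.Y657.HE.INF

open Pool.Agent.Y661.HE
open Pool.Agent.H12R2.And (V ee Q)
open Pool.Agent.H4R2.HD (Av Gn ind)
open Pool.Agent.H4R2.HD.BA (iter_add iter_smul iter_sum iter_mono)

variable {d : ℕ}

theorem T_nonneg (z : V d) (j : ℕ) (x : V d) : 0 ≤ (Av^[j] (ind z)) x := by
  have h1 : ∀ f : V d → ℝ, (∀ y, 0 ≤ f y) → ∀ y, 0 ≤ Av f y := by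
    intro f hf y
    unfold Av
    exact div_nonneg (Finset.sum_nonneg fun i _ => add_nonneg (hf _) (hf _)) (by positivity)
  induction j generalizing x with
  | zero =>
    simp only [Function.iterate_zero, id_eq, ind]
    split_ifs <;> norm_num
  | succ j ih =>
    rw [Function.iterate_succ_apply']
    exact h1 _ ih x

/-- the sums of the iterates -/
noncomputable def SS (z : V d) (m : ℕ) (x : V d) : ℝ := ∑ j ∈ Finset.range m, (Av^[j] (ind z)) x

theorem SS_nonneg (z : V d) (m : ℕ) (x : V d) : 0 ≤ SS z m x :=
  Finset.sum_nonneg fun j _ => T_nonneg z j x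

theorem SS_mono (z : V d) {m n : ℕ} (h : m ≤ n) (x : V d) : SS z m x ≤ SS z n x :=
  Finset.sum_le_sum_of_subset_of_nonneg (Finset.range_subset_range.2 h) fun j _ _ => T_nonneg z j x

/-- a shifted sum -/
theorem SS_shift (z : V d) {i m M : ℕ} (h : i + m ≤ M) (x : V d) :
    ∑ j ∈ Finset.range m, (Av^[i + j] (ind z)) x ≤ SS z M x := by
  have h1 : ∑ j ∈ Finset.range m, (Av^[i + j] (ind z)) x =
      ∑ l ∈ (Finset.range m).map (addLeftEmbedding i), (Av^[l] (ind z)) x := by
    rw [Finset.sum_map]
    rfl
  rw [h1]
  refine Finset.sum_le_sum_of_subset_of_nonneg (fun l hl => ?_) fun j _ _ => T_nonneg z j x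
  rw [Finset.mem_map] at hl
  obtain ⟨j, hj, rfl⟩ := hl
  rw [Finset.mem_range] at hj ⊢
  rw [addLeftEmbedding_apply]
  omega

/-- propagation of a bound by the averages -/
theorem prop (z : V d) (i m : ℕ) (K : ℝ) (g g' : V d → ℝ)
    (h : ∀ y, |g y - g' y| ≤ K * SS z m y) (x : V d) :
    |(Av^[i] g) x - (Av^[i] g') x| ≤ K * ∑ j ∈ Finset.range m, (Av^[i + j] (ind z)) x := by
  have hS : Av^[i] (fun y => K * SS z m y) =
      fun y => K * ∑ j ∈ Finset.range m, (Av^[i + j] (ind z)) y := by
    rw [iter_smul]
    funext y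
    congr 1
    have h1 : Av^[i] (fun y => SS z m y) =
        fun y => ∑ j ∈ Finset.range m, (Av^[i] (Av^[j] (ind z))) y := iter_sum _ _ _
    rw [h1]
    refine Finset.sum_congr rfl fun j _ => ?_
    rw [← Function.iterate_add_apply]
  have h1 := iter_mono i g (fun y => g' y + K * SS z m y)
    (fun y => by have := (abs_le.1 (h y)).2; linarith) x
  have h2 := iter_mono i g' (fun y => g y + K * SS z m y)
    (fun y => by have := (abs_le.1 (h y)).1; linarith) x
  rw [iter_add, hS] at h1 h2
  rw [abs_le]
  constructor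
  · linarith
  · linarith

theorem main (hB : S_BND) : S_INF := by
  intro d hd N c P _ hc hP z W W' hW hW' hWW
  obtain ⟨bE, bU⟩ := hB hd N c P hc hP
  have hd' : (0 : ℝ) < d := by exact_mod_cast hd
  obtain ⟨q, hq⟩ : ∃ q : ℝ, q = c * N / d := ⟨_, rfl⟩
  have hq0 : 0 ≤ q := by rw [hq]; positivity
  have e8 : 8 * c * N / d = 8 * q := by rw [hq]; ring
  rw [← hq] at bE bU
  rw [e8]
  have bu : ∀ n x, |un N P n W x| ≤ (4 * q) ^ n := by
    intro n x
    refine (bU W hW n x).1.trans ?_
    rw [mul_pow]
    exact mul_le_mul_of_nonneg_right (BND.cat_le n) (by positivity)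
  have be : ∀ n, |en N P (n + 1)| ≤ c * (4 * q) ^ n := by
    intro n
    refine (bE n).trans ?_
    rw [mul_pow, mul_assoc]
    exact mul_le_mul_of_nonneg_left (mul_le_mul_of_nonneg_right (BND.cat_le n) (by positivity)) hc
  have hT0 : ∀ x, |W x - W' x| ≤ 2 * c * SS z 1 x := by
    intro x
    unfold SS
    rw [Finset.sum_range_one]
    simp only [Function.iterate_zero, id_eq, ind]
    split_ifs with h
    · have h1 := abs_sub (W x) (W' x)
      have h2 := hW x
      have h3 := hW' x
      linarith
    · rw [hWW x h, sub_self, abs_zero, mul_zero]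
  -- the step from the correctors to the right hand sides
  have stepg : ∀ n, (∀ m ≤ n, ∀ x, |un N P m W x - un N P m W' x| ≤
      1 / 6 * (8 * q) ^ m * SS z (m * N) x) → ∀ x, |gn N P n W x - gn N P n W' x| ≤
      5 / 2 * c * (8 * q) ^ n * SS z (n * N + 1) x := by
    intro n ih x
    have e1 : gn N P n W x - gn N P n W' x = -((W x - W' x) * un N P n W x) -
        W' x * (un N P n W x - un N P n W' x) +
        ∑ k ∈ Finset.range (n + 1), en N P (k + 1) * (un N P (n - k) W x - un N P (n - k) W' x) := by
      unfold gn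
      simp only [mul_sub, Finset.sum_sub_distrib]
      ring
    have hS := SS_nonneg z (n * N + 1) x
    have hS0 := SS_nonneg z (n * N) x
    have hSm : SS z (n * N) x ≤ SS z (n * N + 1) x := SS_mono z (Nat.le_succ _) x
    have hS1 : SS z 1 x ≤ SS z (n * N + 1) x := SS_mono z (by omega) x
    have h8 : 0 ≤ (8 * q) ^ n := by positivity
    have t1 : |-((W x - W' x) * un N P n W x)| ≤ 2 * c * (8 * q) ^ n * SS z (n * N + 1) x := by
      rw [abs_neg, abs_mul]
      calc |W x - W' x| * |un N P n W x| ≤ (2 * c * SS z 1 x) * (4 * q) ^ n :=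
            mul_le_mul (hT0 x) (bu n x) (abs_nonneg _)
              (mul_nonneg (by positivity) (SS_nonneg z 1 x))
        _ ≤ (2 * c * SS z (n * N + 1) x) * (8 * q) ^ n := by
            refine mul_le_mul ?_ ?_ (by positivity) (by positivity)
            · exact mul_le_mul_of_nonneg_left hS1 (by positivity)
            · exact pow_le_pow_left₀ (by positivity) (by linarith) n
        _ = _ := by ring
    have t2 : |W' x * (un N P n W x - un N P n W' x)| ≤
        c / 6 * (8 * q) ^ n * SS z (n * N + 1) x := by
      rw [abs_mul]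
      calc |W' x| * |un N P n W x - un N P n W' x| ≤
            c * (1 / 6 * (8 * q) ^ n * SS z (n * N) x) :=
            mul_le_mul (hW' x) (ih n le_rfl x) (abs_nonneg _) hc
        _ ≤ c * (1 / 6 * (8 * q) ^ n * SS z (n * N + 1) x) := by
            refine mul_le_mul_of_nonneg_left ?_ hc
            exact mul_le_mul_of_nonneg_left hSm (by positivity)
        _ = _ := by ring
    have t3 : |∑ k ∈ Finset.range (n + 1),
        en N P (k + 1) * (un N P (n - k) W x - un N P (n - k) W' x)| ≤
        c / 3 * (8 * q) ^ n * SS z (n * N + 1) x := by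
      refine (Finset.abs_sum_le_sum_abs _ _).trans ?_
      have h1 : ∀ k ∈ Finset.range (n + 1),
          |en N P (k + 1) * (un N P (n - k) W x - un N P (n - k) W' x)| ≤
          c / 6 * (8 * q) ^ n * SS z (n * N + 1) x * (1 / 2) ^ k := by
        intro k hk
        have hk' : k ≤ n := Nat.lt_succ_iff.1 (Finset.mem_range.1 hk)
        rw [abs_mul]
        have hle : SS z ((n - k) * N) x ≤ SS z (n * N + 1) x := by
          refine SS_mono z ?_ x
          have : (n - k) * N ≤ n * N := Nat.mul_le_mul_right _ (Nat.sub_le _ _)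
          omega
        have e2 : (8 * q) ^ n * (1 / 2) ^ k = (4 * q) ^ k * (8 * q) ^ (n - k) := by
          have : (8 * q) ^ n = (8 * q) ^ k * (8 * q) ^ (n - k) := by
            rw [← pow_add]; congr 1; omega
          rw [this, mul_right_comm, ← mul_pow]
          congr 2
          ring
        calc |en N P (k + 1)| * |un N P (n - k) W x - un N P (n - k) W' x| ≤
              (c * (4 * q) ^ k) * (1 / 6 * (8 * q) ^ (n - k) * SS z ((n - k) * N) x) :=
              mul_le_mul (be k) (ih (n - k) (Nat.sub_le _ _) x) (abs_nonneg _) (by positivity)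
          _ ≤ (c * (4 * q) ^ k) * (1 / 6 * (8 * q) ^ (n - k) * SS z (n * N + 1) x) := by
              refine mul_le_mul_of_nonneg_left ?_ (by positivity)
              exact mul_le_mul_of_nonneg_left hle (by positivity)
          _ = c / 6 * ((4 * q) ^ k * (8 * q) ^ (n - k)) * SS z (n * N + 1) x := by ring
          _ = _ := by rw [← e2]; ring
      refine (Finset.sum_le_sum h1).trans ?_
      rw [← Finset.mul_sum]
      have h3 : ∀ M : ℕ, ∑ n ∈ Finset.range M, (1 / 2 : ℝ) ^ n = 2 - 2 * (1 / 2) ^ M := by
        intro M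
        induction M with
        | zero => simp
        | succ M ih => rw [Finset.sum_range_succ, ih, pow_succ]; ring
      have h4 : ∑ k ∈ Finset.range (n + 1), (1 / 2 : ℝ) ^ k ≤ 2 := by
        rw [h3]
        have : (0 : ℝ) ≤ 2 * (1 / 2) ^ (n + 1) := by positivity
        linarith
      calc c / 6 * (8 * q) ^ n * SS z (n * N + 1) x * ∑ k ∈ Finset.range (n + 1), (1 / 2 : ℝ) ^ k
          ≤ c / 6 * (8 * q) ^ n * SS z (n * N + 1) x * 2 :=
            mul_le_mul_of_nonneg_left h4 (by positivity)
        _ = _ := by ring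
    rw [e1]
    have h5 := abs_add_le (-((W x - W' x) * un N P n W x) -
        W' x * (un N P n W x - un N P n W' x)) (∑ k ∈ Finset.range (n + 1),
        en N P (k + 1) * (un N P (n - k) W x - un N P (n - k) W' x))
    have h6 := abs_sub (-((W x - W' x) * un N P n W x))
        (W' x * (un N P n W x - un N P n W' x))
    have e3 : 5 / 2 * c * (8 * q) ^ n * SS z (n * N + 1) x =
        2 * c * (8 * q) ^ n * SS z (n * N + 1) x + c / 6 * (8 * q) ^ n * SS z (n * N + 1) x +
          c / 3 * (8 * q) ^ n * SS z (n * N + 1) x := by ring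
    rw [e3]
    linarith
  -- the induction
  have key : ∀ n, ∀ m ≤ n, ∀ x, |un N P m W x - un N P m W' x| ≤
      1 / 6 * (8 * q) ^ m * SS z (m * N) x := by
    intro n
    induction n with
    | zero =>
      intro m hm x
      have : m = 0 := by omega
      subst this
      rw [un_zero, un_zero, sub_self, abs_zero, zero_mul]
      exact mul_nonneg (by positivity) (SS_nonneg z 0 x)
    | succ n ih =>
      intro m hm x
      rcases Nat.lt_or_ge m (n + 1) with h | h
      · exact ih m (by omega) x
      · have : m = n + 1 := by omega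
        subst this
        rw [un_succ, un_succ]
        unfold Gn
        rw [← sub_div, ← Finset.sum_sub_distrib, abs_div, abs_of_pos (by positivity : (0 : ℝ) < 2 * d),
          div_le_iff₀ (by positivity)]
        refine (Finset.abs_sum_le_sum_abs _ _).trans ?_
        have h1 : ∀ i ∈ Finset.range N, |(Av^[i] (gn N P n W)) x - (Av^[i] (gn N P n W')) x| ≤
            5 / 2 * c * (8 * q) ^ n * SS z ((n + 1) * N) x := by
          intro i hi
          rw [Finset.mem_range] at hi
          refine (prop z i (n * N + 1) _ _ _ (stepg n ih) x).trans ?_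
          refine mul_le_mul_of_nonneg_left (SS_shift z ?_ x) (by positivity)
          have : (n + 1) * N = n * N + N := by ring
          omega
        refine (Finset.sum_le_sum h1).trans ?_
        rw [Finset.sum_const, Finset.card_range, nsmul_eq_mul]
        have hS := SS_nonneg z ((n + 1) * N) x
        have e2 : c * N = q * d := by rw [hq]; field_simp
        have e3 : (N : ℝ) * (5 / 2 * c * (8 * q) ^ n * SS z ((n + 1) * N) x) =
            5 / 2 * (c * N) * ((8 * q) ^ n * SS z ((n + 1) * N) x) := by ring
        rw [e3, e2, pow_succ]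
        have h2 : 0 ≤ q * d * ((8 * q) ^ n * SS z ((n + 1) * N) x) := by positivity
        nlinarith
  refine fun n x => ⟨key n n le_rfl x, ?_, ?_⟩
  · refine (stepg n (key n) x).trans ?_
    have hS := SS_nonneg z (n * N + 1) x
    have h2 : 0 ≤ c * (8 * q) ^ n * SS z (n * N + 1) x := by positivity
    change _ ≤ 3 * c * (8 * q) ^ n * SS z (n * N + 1) x
    nlinarith
  · refine prop z N (n * N + 1) _ _ _ (fun y => ?_) x
    refine (stepg n (key n) y).trans ?_
    have hS := SS_nonneg z (n * N + 1) y
    have h2 : 0 ≤ c * (8 * q) ^ n * SS z (n * N + 1) y := by positivity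
    nlinarith

end Pool.Agent.Y657.HE.INF
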